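import Mathlib

set_option autoImplicit false

open Set Submodule

namespace Pool.Agent.Lib.MP_b67a76_co

/-- Ground set: the affine points of `GF(2)^m`, together with `m + 1` points at infinity. -/
abbrev Gd (m : ℕ) := (Fin m → ZMod 2) ⊕ Option (Fin m)

/-- The vectors: `u ↦ (u,1)`, and at infinity the unit vectors and the all-one vector. -/
def phi (m : ℕ) : Gd m → (Fin m → ZMod 2) × ZMod 2
  | Sum.inl u => (u, 1)
  | Sum.inr (some i) => (Pi.single i 1, 0)
  | Sum.inr none => (fun _ => 1, 0)

/-- The circuit-hyperplane that is going to be relaxed. -/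
def Yc (m : ℕ) : Set (Gd m) := Set.range Sum.inr

/-- Independence in the relaxation. -/
def Ind (m : ℕ) (I : Set (Gd m)) : Prop := LinearIndepOn (ZMod 2) (phi m) I ∨ I = Yc m

lemma finrank_V (m : ℕ) : Module.finrank (ZMod 2) ((Fin m → ZMod 2) × ZMod 2) = m + 1 := by
  simp

lemma ncard_Yc (m : ℕ) : (Yc m).ncard = m + 1 := by
  rw [Yc, ← Set.image_univ, Set.ncard_image_of_injective _ Sum.inr_injective, Set.ncard_univ]
  simp

lemma finrank_span_of_LI {m : ℕ} {I : Set (Gd m)} (h : LinearIndepOn (ZMod 2) (phi m) I) :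
    Module.finrank (ZMod 2) (span (ZMod 2) (phi m '' I)) = I.ncard := by
  classical
  have h2 := finrank_span_eq_card (R := ZMod 2) (b := fun x : I => phi m x) h
  rw [show Set.range (fun x : I => phi m x) = phi m '' I from (Set.image_eq_range _ _).symm] at h2
  rw [h2, Set.ncard_eq_toFinset_card', Set.toFinset_card]

lemma ncard_le_of_LI {m : ℕ} {I : Set (Gd m)} (h : LinearIndepOn (ZMod 2) (phi m) I) :
    I.ncard ≤ m + 1 := by
  rw [← finrank_span_of_LI h, ← finrank_V m]
  exact Submodule.finrank_le _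

lemma ncard_le_of_Ind {m : ℕ} {I : Set (Gd m)} (h : Ind m I) : I.ncard ≤ m + 1 := by
  rcases h with h | h
  · exact ncard_le_of_LI h
  · rw [h, ncard_Yc]

/-- the all-one point is the sum of the units: removing any point of `Yc` leaves independence -/
lemma LI_Yc_diff {m : ℕ} (y : Gd m) (hy : y ∈ Yc m) :
    LinearIndepOn (ZMod 2) (phi m) (Yc m \ {y}) := by
  classical
  rw [linearIndepOn_iff'']
  intro t g ht hg hsum
  have h1 : ∑ i : Gd m, g i • phi m i = 0 := by
    rw [← hsum]; symm
    apply Finset.sum_subset (Finset.subset_univ _)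
    intro x _ hx; rw [hg x hx, zero_smul]
  have hinl : ∀ u, g (Sum.inl u) = 0 := by
    intro u
    apply hg
    intro hu
    obtain ⟨z, hz⟩ := (ht hu).1
    cases hz
  have hy0 : g y = 0 := by
    apply hg
    intro hu
    exact (ht hu).2 rfl
  rw [Fintype.sum_sum_type, Fintype.sum_option] at h1
  have h2 : ∀ i, g (Sum.inr none) + g (Sum.inr (some i)) = 0 := by
    intro i
    have := congrFun (congrArg Prod.fst h1) i
    simpa [phi, hinl, Prod.fst_sum, Finset.sum_apply, Pi.single_apply] using this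
  have h3 : g (Sum.inr none) = 0 := by
    obtain ⟨o, rfl⟩ := hy
    rcases o with _ | i
    · exact hy0
    · have := h2 i; rw [hy0, add_zero] at this; exact this
  intro x hx
  obtain ⟨o, rfl⟩ := (ht hx).1
  rcases o with _ | i
  · exact h3
  · have := h2 i; rw [h3, zero_add] at this; exact this

/-- The hyperplane at infinity. -/
def Hinf (m : ℕ) : Submodule (ZMod 2) ((Fin m → ZMod 2) × ZMod 2) :=
  LinearMap.ker (LinearMap.snd (ZMod 2) (Fin m → ZMod 2) (ZMod 2))

lemma finrank_Hinf (m : ℕ) : Module.finrank (ZMod 2) (Hinf m) = m := by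
  have h := LinearMap.finrank_range_add_finrank_ker
    (LinearMap.snd (ZMod 2) (Fin m → ZMod 2) (ZMod 2))
  rw [LinearMap.range_eq_top.2 LinearMap.snd_surjective, finrank_top, finrank_V,
    Module.finrank_self] at h
  have : Module.finrank (ZMod 2) (Hinf m) = Module.finrank (ZMod 2)
    (LinearMap.ker (LinearMap.snd (ZMod 2) (Fin m → ZMod 2) (ZMod 2))) := rfl
  omega

lemma Hinf_le {m : ℕ} {p : Submodule (ZMod 2) ((Fin m → ZMod 2) × ZMod 2)}
    (hp : ∀ i, phi m (Sum.inr (some i)) ∈ p) : Hinf m ≤ p := by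
  classical
  rintro ⟨u, t⟩ hw
  have ht : t = 0 := hw
  subst ht
  have : ((u, 0) : (Fin m → ZMod 2) × ZMod 2) = ∑ i, u i • phi m (Sum.inr (some i)) := by
    ext j
    · simp [phi, Prod.fst_sum, Finset.sum_apply, Pi.single_apply]
    · simp [phi, Prod.snd_sum]
  rw [this]
  exact Submodule.sum_mem _ fun i _ => Submodule.smul_mem _ _ (hp i)

lemma Ind_subset {m : ℕ} ⦃I J : Set (Gd m)⦄ (hJ : Ind m J) (hIJ : I ⊆ J) : Ind m I := by
  rcases hJ with hJ | hJ
  · exact Or.inl (hJ.mono hIJ)
  · subst hJ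
    by_cases h : I = Yc m
    · exact Or.inr h
    · obtain ⟨y, hy, hyI⟩ := Set.exists_of_ssubset (hIJ.ssubset_of_ne h)
      exact Or.inl ((LI_Yc_diff y hy).mono fun x hx => ⟨hIJ hx, fun h' => hyI (h' ▸ hx)⟩)

lemma Ind_aug {m : ℕ} ⦃I J : Set (Gd m)⦄ (hI : Ind m I) (hJ : Ind m J)
    (hlt : I.ncard < J.ncard) : ∃ e ∈ J, e ∉ I ∧ Ind m (insert e I) := by
  rcases hI with hI | hI
  swap
  · exfalso
    have := ncard_le_of_Ind hJ
    rw [hI, ncard_Yc] at hlt
    omega
  by_cases hex : ∃ e ∈ J, phi m e ∉ span (ZMod 2) (phi m '' I)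
  · obtain ⟨e, heJ, he⟩ := hex
    exact ⟨e, heJ, fun heI => he (subset_span ⟨e, heI, rfl⟩), Or.inl (hI.insert he)⟩
  push Not at hex
  rcases hJ with hJ | hJ
  · exfalso
    have hle : span (ZMod 2) (phi m '' J) ≤ span (ZMod 2) (phi m '' I) := by
      rw [span_le]
      rintro _ ⟨e, he, rfl⟩
      exact hex e he
    have h1 := Submodule.finrank_mono hle
    rw [finrank_span_of_LI hI, finrank_span_of_LI hJ] at h1
    omega
  · subst hJ
    rw [ncard_Yc] at hlt
    have hH : Hinf m ≤ span (ZMod 2) (phi m '' I) := Hinf_le fun i => hex _ ⟨_, rfl⟩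
    have h1 := Submodule.finrank_mono hH
    rw [finrank_span_of_LI hI, finrank_Hinf] at h1
    have hcard : I.ncard = m := by omega
    have heq : Hinf m = span (ZMod 2) (phi m '' I) := by
      apply Submodule.eq_of_le_of_finrank_eq hH
      rw [finrank_span_of_LI hI, finrank_Hinf, hcard]
    have hsub : I ⊆ Yc m := by
      intro x hx
      have hxH : phi m x ∈ Hinf m := by
        rw [heq]
        exact subset_span ⟨x, hx, rfl⟩
      rcases x with u | o
      · have : (1 : ZMod 2) = 0 := hxH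
        exact absurd this (by decide)
      · exact ⟨o, rfl⟩
    obtain ⟨e, heY, heI⟩ := Set.exists_mem_notMem_of_ncard_lt_ncard
      (s := I) (t := Yc m) (by rw [ncard_Yc]; omega) 
    refine ⟨e, heY, heI, Or.inr ?_⟩
    apply Set.eq_of_subset_of_ncard_le (Set.insert_subset heY hsub)
    rw [ncard_Yc, Set.ncard_insert_of_notMem heI, hcard]

/-- The relaxed matroid. -/
def relM (m : ℕ) : Matroid (Gd m) :=
  (IndepMatroid.ofFinite (E := Set.univ) Set.finite_univ (Ind m)
    (Or.inl (linearIndepOn_empty _ _)) Ind_subset Ind_aug (fun _ _ => Set.subset_univ _)).matroid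

@[simp] lemma relM_E (m : ℕ) : (relM m).E = Set.univ := rfl

@[simp] lemma relM_Indep (m : ℕ) (I : Set (Gd m)) : (relM m).Indep I ↔ Ind m I := Iff.rfl

lemma isBase_of {m : ℕ} {B : Set (Gd m)} (h : Ind m B) (hB : B.ncard = m + 1) :
    (relM m).IsBase B := by
  rw [Matroid.isBase_iff_maximal_indep]
  refine ⟨(relM_Indep m B).2 h, fun J hJ hBJ => ?_⟩
  have hJ' := ncard_le_of_Ind ((relM_Indep m J).1 hJ)
  exact (Set.eq_of_subset_of_ncard_le hBJ (by omega)).symm.subset

lemma spanning_of_span {m : ℕ} {X : Set (Gd m)} (h : span (ZMod 2) (phi m '' X) = ⊤) :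
    (relM m).Spanning X := by
  obtain ⟨b, hbX, -, hsp, hli⟩ := exists_linearIndepOn_extension
    (K := ZMod 2) (v := phi m) (s := ∅) (t := X) (linearIndepOn_empty _ _) (Set.empty_subset _)
  have htop : span (ZMod 2) (phi m '' b) = ⊤ := by
    rw [eq_top_iff, ← h, span_le]
    exact hsp
  have hcard : b.ncard = m + 1 := by
    rw [← finrank_span_of_LI hli, htop, finrank_top, finrank_V]
  exact (isBase_of (Or.inl hli) hcard).spanning_of_superset hbX


lemma fst_eq_of {m : ℕ} (f : Module.Dual (ZMod 2) ((Fin m → ZMod 2) × ZMod 2))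
    (h1 : ∀ i, f (Pi.single i 1, 0) = 0) (h2 : f (0, 1) = 0) : f = 0 := by
  classical
  ext i
  · simpa using h1 i
  · simpa using h2

/-- Roundness. -/
lemma round_relM (m : ℕ) (X Z : Set (Gd m)) (hXZ : X ∪ Z = Set.univ) :
    (relM m).Spanning X ∨ (relM m).Spanning Z := by
  classical
  by_contra hcon
  push Not at hcon
  obtain ⟨hX, hZ⟩ := hcon
  have hX' : span (ZMod 2) (phi m '' X) < ⊤ := lt_top_iff_ne_top.2 fun h => hX (spanning_of_span h)
  have hZ' : span (ZMod 2) (phi m '' Z) < ⊤ := lt_top_iff_ne_top.2 fun h => hZ (spanning_of_span h)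
  obtain ⟨f, hf0, hf⟩ := Submodule.exists_le_ker_of_lt_top _ hX'
  obtain ⟨g, hg0, hg⟩ := Submodule.exists_le_ker_of_lt_top _ hZ'
  have key : ∀ x, f (phi m x) * g (phi m x) = 0 := by
    intro x
    have hx : x ∈ X ∪ Z := by rw [hXZ]; trivial
    rcases hx with hx | hx
    · have : f (phi m x) = 0 := hf (subset_span ⟨x, hx, rfl⟩)
      rw [this, zero_mul]
    · have : g (phi m x) = 0 := hg (subset_span ⟨x, hx, rfl⟩)
      rw [this, mul_zero]
  have dec : ∀ a b : ZMod 2, a * b = 0 → a = 0 ∨ b = 0 := by decide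
  have haff : ∀ (h : Module.Dual (ZMod 2) ((Fin m → ZMod 2) × ZMod 2)) (u : Fin m → ZMod 2),
      h (u, 1) = h (u, 0) + h (0, 1) := by
    intro h u
    rw [← map_add]; simp
  have hone : ∀ i, f (Pi.single i 1, 0) * g (Pi.single i 1, 0) = 0 := fun i =>
    key (Sum.inr (some i))
  have hu : ∀ u, (f (u, 0) + f (0, 1)) * (g (u, 0) + g (0, 1)) = 0 := by
    intro u
    rw [← haff, ← haff]
    exact key (Sum.inl u)
  have hab : f (0, 1) * g (0, 1) = 0 := by
    have := hu 0
    have h0 : ∀ h : Module.Dual (ZMod 2) ((Fin m → ZMod 2) × ZMod 2), h ((0 : Fin m → ZMod 2), 0) = 0 :=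
      fun h => map_zero h
    rwa [h0, h0, zero_add, zero_add] at this
  -- case analysis
  have two : ∀ a : ZMod 2, a = 0 ∨ a = 1 := by decide
  rcases two (f (0, 1)) with ha | ha <;> rcases two (g (0, 1)) with hb | hb
  · -- both linear parts carry everything
    have hfi : ∃ i, f (Pi.single i 1, 0) = 1 := by
      by_contra hno
      push Not at hno
      exact hf0 (fst_eq_of f (fun i => ((two _).resolve_right (hno i))) ha)
    have hgj : ∃ j, g (Pi.single j 1, 0) = 1 := by
      by_contra hno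
      push Not at hno
      exact hg0 (fst_eq_of g (fun i => ((two _).resolve_right (hno i))) hb)
    obtain ⟨i, hi⟩ := hfi
    obtain ⟨j, hj⟩ := hgj
    have hgi := hone i
    rw [hi, one_mul] at hgi
    have hfj := hone j
    rw [hj, mul_one] at hfj
    have := hu (Pi.single i 1 + Pi.single j 1)
    have hadd : ∀ h : Module.Dual (ZMod 2) ((Fin m → ZMod 2) × ZMod 2),
        h ((Pi.single i 1 + Pi.single j 1 : Fin m → ZMod 2), 0)
          = h (Pi.single i 1, 0) + h (Pi.single j 1, 0) := by
      intro h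
      rw [← map_add]; simp
    rw [hadd, hadd, hi, hj, hgi, hfj, ha, hb] at this
    exact absurd this (by decide)
  · -- f(0,1) = 0, g(0,1) = 1 : f vanishes
    apply hf0
    apply fst_eq_of f _ ha
    intro i
    have h1 := hone i
    have h2 := hu (Pi.single i 1)
    rw [ha, hb] at h2
    revert h1 h2
    generalize f (Pi.single i 1, 0) = x
    generalize g (Pi.single i 1, 0) = y
    revert x y
    decide
  · apply hg0
    apply fst_eq_of g _ hb
    intro i
    have h1 := hone i
    have h2 := hu (Pi.single i 1)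
    rw [ha, hb] at h2
    revert h1 h2
    generalize f (Pi.single i 1, 0) = x
    generalize g (Pi.single i 1, 0) = y
    revert x y
    decide
  · rw [ha, hb] at hab
    exact absurd hab (by decide)

/-- Four points on a binary line are impossible. -/
lemma four_points {α : Type*} {U : Type*} [AddCommGroup U] [Module (ZMod 2) U] (v : α → U)
    (C : Set α) (x : Fin 4 → α) (hinj : Function.Injective x) (hC : ∀ i, x i ∉ C)
    (hpair : ∀ i j, i ≠ j → LinearIndepOn (ZMod 2) v (insert (x i) (insert (x j) C)))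
    (htri : ∀ k, k ≠ 0 → k ≠ 1 → ¬ LinearIndepOn (ZMod 2) v
      (insert (x k) (insert (x 0) (insert (x 1) C)))) : False := by
  have two : ∀ a : ZMod 2, a = 0 ∨ a = 1 := by decide
  set P := span (ZMod 2) (v '' C) with hP
  have hmem : ∀ i j, i ≠ j → ∀ a : ZMod 2, v (x i) + a • v (x j) ∉ P := by
    intro i j hij a hmem
    have h1 := hpair i j hij
    have hnot : x i ∉ insert (x j) C := by
      rintro (h | h)
      · exact hij (hinj h)
      · exact hC i h
    have h2 := ((linearIndepOn_insert hnot).1 h1).2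
    apply h2
    rw [Set.image_insert_eq, Submodule.mem_span_insert]
    refine ⟨-a, v (x i) + a • v (x j), hmem, ?_⟩
    rw [neg_smul]; abel
  have hthree : ∀ k, k ≠ 0 → k ≠ 1 → v (x k) + v (x 0) + v (x 1) ∈ P := by
    intro k hk0 hk1
    have h1 := htri k hk0 hk1
    have h2 : v (x k) ∈ span (ZMod 2) (v '' (insert (x 0) (insert (x 1) C))) := by
      by_contra hno
      exact h1 ((hpair 0 1 (by decide)).insert hno)
    rw [Set.image_insert_eq, Submodule.mem_span_insert] at h2
    obtain ⟨a, z, hz, hk⟩ := h2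
    rw [Set.image_insert_eq, Submodule.mem_span_insert] at hz
    obtain ⟨b, w, hw, rfl⟩ := hz
    have hself : ∀ y : U, y + y = 0 := by
      intro y
      have : (2 : ZMod 2) • y = 0 := by
        rw [show (2 : ZMod 2) = 0 from by decide, zero_smul]
      rwa [two_smul] at this
    rcases two a with rfl | rfl <;> rcases two b with rfl | rfl
    · exfalso
      apply hmem k 0 hk0 0
      simpa [hk] using hw
    · exfalso
      apply hmem k 1 hk1 1
      have : v (x k) + (1 : ZMod 2) • v (x 1) = w + (v (x 1) + v (x 1)) := by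
        rw [hk]; simp; abel
      rw [this, hself, add_zero]
      exact hw
    · exfalso
      apply hmem k 0 hk0 1
      have : v (x k) + (1 : ZMod 2) • v (x 0) = w + (v (x 0) + v (x 0)) := by
        rw [hk]; simp; abel
      rw [this, hself, add_zero]
      exact hw
    · have : v (x k) + v (x 0) + v (x 1) = w + (v (x 0) + v (x 0)) + (v (x 1) + v (x 1)) := by
        rw [hk]; simp; abel
      rw [this, hself, hself, add_zero, add_zero]
      exact hw
  have h2 := hthree 2 (by decide) (by decide)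
  have h3 := hthree 3 (by decide) (by decide)
  have h4 := P.add_mem h2 h3
  apply hmem 2 3 (by decide) 1
  have hself : ∀ y : U, y + y = 0 := by
    intro y
    have : (2 : ZMod 2) • y = 0 := by
      rw [show (2 : ZMod 2) = 0 from by decide, zero_smul]
    rwa [two_smul] at this
  have : v (x 2) + v (x 0) + v (x 1) + (v (x 3) + v (x 0) + v (x 1))
      = v (x 2) + (1 : ZMod 2) • v (x 3) + (v (x 0) + v (x 0)) + (v (x 1) + v (x 1)) := by
    simp; abel
  rw [this, hself, hself, add_zero, add_zero] at h4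
  exact h4


/-- Excluding the five-point line. -/
lemma no_U25 (m : ℕ) : ¬ ∃ N : Matroid (Gd m), Matroid.IsMinor N (relM m) ∧
    N.E.ncard = 2 ^ 2 + 1 ∧ ∀ I : Set (Gd m), I ⊆ N.E → (N.Indep I ↔ I.ncard ≤ 2) := by
  classical
  rintro ⟨N, ⟨C0, D, rfl⟩, hcard, hN⟩
  obtain ⟨C, hC⟩ := (relM m).exists_isBasis C0 (Set.subset_univ _)
  rw [hC.contract_eq_contract_delete, Matroid.delete_delete] at hcard hN
  set D' := C0 \ C ∪ D with hD'
  set N := ((relM m).contract C).delete D' with hNdef
  have hNi : ∀ I : Set (Gd m), I ⊆ N.E → (N.Indep I ↔ (relM m).Indep (I ∪ C)) := by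
    intro I hI
    have hI' : I ⊆ (Set.univ \ C) \ D' := hI
    rw [hNdef, Matroid.delete_indep_iff, hC.indep.contract_indep_iff]
    constructor
    · exact fun h => h.1.2
    · intro h
      refine ⟨⟨?_, h⟩, ?_⟩
      · rw [Set.disjoint_left]
        exact fun x hx => (hI' hx).1.2
      · rw [Set.disjoint_left]
        exact fun x hx => (hI' hx).2
  have hcard' : Nat.card N.E = 5 := by
    rw [Nat.card_coe_set_eq, hcard]; norm_num
  let e := Finite.equivFinOfCardEq hcard'
  let y : Fin 5 → Gd m := fun i => ((e.symm i : N.E) : Gd m)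
  have hyinj : Function.Injective y := Subtype.val_injective.comp e.symm.injective
  have hyE : ∀ i, y i ∈ N.E := fun i => (e.symm i).2
  have hyC : ∀ i, y i ∉ C := by
    intro i
    have : y i ∈ (Set.univ \ C) \ D' := hyE i
    exact this.1.2
  have hpair : ∀ i j, i ≠ j → Ind m (insert (y i) (insert (y j) C)) := by
    intro i j hij
    have hsub : ({y i, y j} : Set (Gd m)) ⊆ N.E := by
      rintro z (rfl | rfl)
      · exact hyE i
      · exact hyE j
    have h1 := (hN _ hsub).2 (by rw [Set.ncard_pair (hyinj.ne hij)])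
    have h2 := (hNi _ hsub).1 h1
    rw [relM_Indep] at h2
    rwa [Set.insert_union, Set.singleton_union] at h2
  obtain ⟨k0, hk0⟩ : ∃ k0 : Fin 5, ∀ i j, i ≠ k0 → j ≠ k0 → i ≠ j →
      insert (y i) (insert (y j) C) ≠ Yc m := by
    by_cases h : ∃ a b, a ≠ b ∧ insert (y a) (insert (y b) C) = Yc m
    · obtain ⟨a, b, -, hY⟩ := h
      refine ⟨a, fun i j hi hj _ heq => ?_⟩
      have : y a ∈ insert (y i) (insert (y j) C) := by
        rw [heq, ← hY]; exact Set.mem_insert _ _
      rcases this with h | h | h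
      · exact hi (hyinj h).symm
      · exact hj (hyinj h).symm
      · exact hyC a h
    · push Not at h
      exact ⟨0, fun i j _ _ hij => h i j hij⟩
  refine four_points (phi m) C (fun i => y (k0.succAbove i)) ?_ (fun i => hyC _) ?_ ?_
  · exact hyinj.comp Fin.succAbove_right_injective
  · intro i j hij
    rcases hpair (k0.succAbove i) (k0.succAbove j)
      (fun h => hij (Fin.succAbove_right_injective h)) with h | h
    · exact h
    · exact absurd h (hk0 _ _ (Fin.succAbove_ne _ _) (Fin.succAbove_ne _ _)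
        (fun h => hij (Fin.succAbove_right_injective h)))
  · intro k hk0' hk1 hLI
    have hsub : ({y (k0.succAbove k), y (k0.succAbove 0), y (k0.succAbove 1)} : Set (Gd m))
        ⊆ N.E := by
      rintro z (rfl | rfl | rfl) <;> exact hyE _
    have h1 : (relM m).Indep
        ({y (k0.succAbove k), y (k0.succAbove 0), y (k0.succAbove 1)} ∪ C) := by
      rw [relM_Indep, Set.insert_union, Set.insert_union, Set.singleton_union]
      exact Or.inl hLI
    have h2 := (hN _ hsub).1 ((hNi _ hsub).2 h1)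
    have hinj : Function.Injective (fun i => y (k0.succAbove i)) :=
      hyinj.comp Fin.succAbove_right_injective
    have h3 : ({y (k0.succAbove k), y (k0.succAbove 0), y (k0.succAbove 1)} : Set (Gd m)).ncard
        = 3 := by
      rw [Set.ncard_eq_three]
      exact ⟨_, _, _, hinj.ne hk0', hinj.ne hk1, hinj.ne (by decide), rfl⟩
    omega

/-- Adding two elements that are independent in a two-dimensional quotient. -/
lemma LI_insert2 {α : Type*} {U W : Type*} [AddCommGroup U] [Module (ZMod 2) U]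
    [AddCommGroup W] [Module (ZMod 2) W] {v : α → U}
    {C : Set α} (hC : LinearIndepOn (ZMod 2) v C) (r : U →ₗ[ZMod 2] W)
    (hr : ∀ x ∈ C, r (v x) = 0) {a b : α} (ha : r (v a) ≠ 0) (hb : r (v b) ≠ 0)
    (hab : r (v a) ≠ r (v b)) : LinearIndepOn (ZMod 2) v (insert a (insert b C)) := by
  have two : ∀ a : ZMod 2, a = 0 ∨ a = 1 := by decide
  have hker : ∀ z ∈ span (ZMod 2) (v '' C), r z = 0 := by
    intro z hz
    have hle : span (ZMod 2) (v '' C) ≤ LinearMap.ker r := by
      rw [span_le]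
      rintro _ ⟨x, hx, rfl⟩
      exact hr x hx
    exact hle hz
  have h1 : LinearIndepOn (ZMod 2) v (insert b C) := hC.insert fun h => hb (hker _ h)
  refine h1.insert fun h => ?_
  rw [Set.image_insert_eq, Submodule.mem_span_insert] at h
  obtain ⟨t, z, hz, h⟩ := h
  have h2 := congrArg r h
  rw [map_add, map_smul, hker z hz, add_zero] at h2
  rcases two t with rfl | rfl
  · rw [zero_smul] at h2; exact ha h2
  · rw [one_smul] at h2; exact hab h2

/-- The relaxation is not binary. -/
lemma not_rep (m : ℕ) (hm : 0 < m) : ¬ ∃ (n : ℕ) (v : Gd m → Fin n → ZMod 2),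
    ∀ I : Set (Gd m), (relM m).Indep I ↔
      (I ⊆ (relM m).E ∧ LinearIndependent (ZMod 2) (fun x : I => v (x : Gd m))) := by
  classical
  rintro ⟨n, v, hv⟩
  have hv' : ∀ I : Set (Gd m), Ind m I ↔ LinearIndepOn (ZMod 2) v I := by
    intro I
    rw [← relM_Indep, hv]
    exact ⟨fun h => h.2, fun h => ⟨Set.subset_univ _, h⟩⟩
  let i0 : Fin m := ⟨0, hm⟩
  let x : Fin 4 → Gd m := ![Sum.inr (some i0), Sum.inr none, Sum.inl 0, Sum.inl (Pi.single i0 1)]
  let C : Set (Gd m) := Yc m \ {Sum.inr (some i0), Sum.inr none}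
  have hs : (Pi.single i0 1 : Fin m → ZMod 2) ≠ 0 := by
    intro h
    have := congrFun h i0
    rw [Pi.single_eq_same] at this
    exact one_ne_zero this
  have hinj : Function.Injective x := by
    intro i j hij
    fin_cases i <;> fin_cases j <;> simp [x] at hij ⊢
    all_goals first | exact hs hij | exact hs hij.symm
  have hxC : ∀ i, x i ∉ C := by
    intro i
    fin_cases i
    · exact fun h => h.2 (Or.inl rfl)
    · exact fun h => h.2 (Or.inr rfl)
    · rintro ⟨⟨_, h⟩, -⟩; cases h
    · rintro ⟨⟨_, h⟩, -⟩; cases h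
  have hY : insert (x 0) (insert (x 1) C) = Yc m := by
    ext z
    constructor
    · rintro (rfl | rfl | h)
      · exact ⟨_, rfl⟩
      · exact ⟨_, rfl⟩
      · exact h.1
    · intro hz
      by_cases h0 : z = x 0
      · exact Or.inl h0
      by_cases h1 : z = x 1
      · exact Or.inr (Or.inl h1)
      refine Or.inr (Or.inr ⟨hz, ?_⟩)
      rintro (h | h)
      · exact h0 h
      · exact h1 h
  have hCLI : LinearIndepOn (ZMod 2) (phi m) C :=
    (LI_Yc_diff (Sum.inr none) ⟨_, rfl⟩).mono fun z hz => ⟨hz.1, fun h => hz.2 (Or.inr h)⟩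
  let r : ((Fin m → ZMod 2) × ZMod 2) →ₗ[ZMod 2] (ZMod 2 × ZMod 2) :=
    LinearMap.prodMap (LinearMap.proj i0) LinearMap.id
  have hr : ∀ z ∈ C, r (phi m z) = 0 := by
    rintro z ⟨⟨o, rfl⟩, hz⟩
    rcases o with _ | i
    · exact absurd (Or.inr rfl) hz
    · have hi : i ≠ i0 := fun h => hz (Or.inl (by rw [h]))
      simp [r, phi, hi.symm]
  let rho : Fin 4 → ZMod 2 × ZMod 2 := ![(1, 0), (1, 0), (0, 1), (1, 1)]
  have hrho : ∀ i, r (phi m (x i)) = rho i := by
    intro i
    fin_cases i <;> simp [r, phi, x, rho]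
  have hrho0 : ∀ i, rho i ≠ 0 := by decide
  have hrho1 : ∀ i j, i ≠ j → ¬ (i = 0 ∧ j = 1) → ¬ (i = 1 ∧ j = 0) → rho i ≠ rho j := by decide
  have hpair : ∀ i j, i ≠ j → Ind m (insert (x i) (insert (x j) C)) := by
    intro i j hij
    by_cases h01 : i = 0 ∧ j = 1
    · rw [h01.1, h01.2]; exact Or.inr hY
    by_cases h10 : i = 1 ∧ j = 0
    · rw [h10.1, h10.2]; exact Or.inr (by rw [← hY]; exact Set.insert_comm _ _ _)
    refine Or.inl (LI_insert2 hCLI r hr ?_ ?_ ?_)
    · rw [hrho]; exact hrho0 i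
    · rw [hrho]; exact hrho0 j
    · rw [hrho, hrho]; exact hrho1 i j hij h01 h10
  refine four_points v C x hinj hxC (fun i j hij => (hv' _).1 (hpair i j hij)) ?_
  intro k hk0 hk1 hLI
  have h1 := ncard_le_of_Ind ((hv' _).2 hLI)
  rw [hY] at h1
  have hk : x k ∉ Yc m := by
    rw [← hY]
    rintro (h | h | h)
    · exact hk0 (hinj h)
    · exact hk1 (hinj h)
    · exact hxC k h
  rw [Set.ncard_insert_of_notMem hk, ncard_Yc] at h1
  omega

lemma rep_mk2 {m : ℕ} (u : Fin m → ZMod 2) (hu : u ≠ 0) :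
    (Projectivization.mk (ZMod 2) u hu).rep = u := by
  obtain ⟨a, ha⟩ := Projectivization.exists_smul_eq_mk_rep (ZMod 2) u hu
  rw [← ha, Subsingleton.elim a 1, one_smul]

/-- Contracting the vector `(0,1)` of `V × F` amounts to projecting onto `V`. -/
lemma LI_insert_zero_iff {m : ℕ} {I : Set (Gd m)} (h0 : Sum.inl 0 ∉ I) :
    LinearIndepOn (ZMod 2) (phi m) (insert (Sum.inl 0) I) ↔
      LinearIndepOn (ZMod 2) (LinearMap.fst (ZMod 2) (Fin m → ZMod 2) (ZMod 2) ∘ phi m) I := by
  have two : ∀ a : ZMod 2, a = 0 ∨ a = 1 := by decide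
  rw [linearIndepOn_insert h0]
  constructor
  · rintro ⟨hI, hn⟩
    refine LinearIndependent.map (v := fun x : I => phi m x) hI ?_
    rw [Submodule.disjoint_def]
    rintro ⟨w, t⟩ hw hker
    have hw0 : w = 0 := hker
    subst hw0
    rcases two t with rfl | rfl
    · rfl
    · exfalso
      apply hn
      rw [Set.image_eq_range]
      exact hw
  · intro hI
    refine ⟨hI.of_comp _, fun hmem => ?_⟩
    rw [Finsupp.mem_span_image_iff_linearCombination] at hmem
    obtain ⟨l, hl, hl2⟩ := hmem
    have hl3 : Finsupp.linearCombination (ZMod 2)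
        (LinearMap.fst (ZMod 2) (Fin m → ZMod 2) (ZMod 2) ∘ phi m) l = 0 := by
      rw [Finsupp.linearCombination_linear_comp, LinearMap.comp_apply, hl2]
      rfl
    have hl4 := linearIndepOn_iff.1 hI l hl hl3
    rw [hl4, map_zero] at hl2
    have : (0 : ZMod 2) = 1 := congrArg Prod.snd hl2
    exact zero_ne_one this

/-- The projective geometry of rank `m` is a minor. -/
lemma pg_minor (m : ℕ) (hm : 0 < m) :
    ∃ N : Matroid (Gd m), Matroid.IsMinor N (relM m) ∧
      ∃ g : Gd m → Projectivization (ZMod 2) (Fin m → ZMod 2), Set.BijOn g N.E Set.univ ∧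
        ∀ I : Set (Gd m), N.Indep I ↔
          (I ⊆ N.E ∧ LinearIndependent (ZMod 2) (fun x : I => (g (x : Gd m)).rep)) := by
  classical
  have hone : (fun _ => 1 : Fin m → ZMod 2) ≠ 0 := by
    intro h
    have := congrFun h ⟨0, hm⟩
    exact one_ne_zero this
  let d : Projectivization (ZMod 2) (Fin m → ZMod 2) := Projectivization.mk (ZMod 2) _ hone
  let g : Gd m → Projectivization (ZMod 2) (Fin m → ZMod 2) := fun x =>
    match x with
    | Sum.inl u => if hu : u ≠ 0 then Projectivization.mk (ZMod 2) u hu else d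
    | Sum.inr _ => d
  have hg : ∀ u (hu : u ≠ 0), g (Sum.inl u) = Projectivization.mk (ZMod 2) u hu := by
    intro u hu
    simp only [g, dif_pos hu]
  have hE : ∀ x : Gd m, x ∈ (((relM m).contract {Sum.inl 0}).delete (Set.range Sum.inr)).E ↔
      ∃ u, u ≠ 0 ∧ x = Sum.inl u := by
    intro x
    have : x ∈ (((relM m).contract {Sum.inl 0}).delete (Set.range Sum.inr)).E ↔
      x ∈ (Set.univ \ {Sum.inl 0}) \ Set.range Sum.inr := Iff.rfl
    rw [this]
    constructor
    · rintro ⟨⟨-, h1⟩, h2⟩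
      rcases x with u | o
      · exact ⟨u, fun h => h1 (by rw [h]; rfl), rfl⟩
      · exact absurd ⟨o, rfl⟩ h2
    · rintro ⟨u, hu, rfl⟩
      refine ⟨⟨trivial, fun h => hu (Sum.inl_injective h)⟩, ?_⟩
      rintro ⟨o, h⟩
      cases h
  refine ⟨((relM m).contract {Sum.inl 0}).delete (Set.range Sum.inr), ⟨_, _, rfl⟩, g, ?_, ?_⟩
  · refine ⟨fun _ _ => trivial, ?_, ?_⟩
    · intro x hx y hy hxy
      obtain ⟨u, hu, rfl⟩ := (hE x).1 hx
      obtain ⟨w, hw, rfl⟩ := (hE y).1 hy
      rw [hg u hu, hg w hw] at hxy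
      rw [← rep_mk2 u hu, ← rep_mk2 w hw, hxy]
    · intro p _
      refine ⟨Sum.inl p.rep, (hE _).2 ⟨_, p.rep_nonzero, rfl⟩, ?_⟩
      rw [hg _ p.rep_nonzero, Projectivization.mk_rep]
  · intro I
    have h0 : Ind m {Sum.inl 0} := by
      refine Or.inl (LinearIndepOn.singleton ?_)
      intro h
      have : (1 : ZMod 2) = 0 := congrArg Prod.snd h
      exact one_ne_zero this
    have hcon : (((relM m).contract {Sum.inl 0}).delete (Set.range Sum.inr)).Indep I ↔
        ((Disjoint I {Sum.inl 0} ∧ (relM m).Indep (I ∪ {Sum.inl 0})) ∧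
          Disjoint I (Set.range Sum.inr)) := by
      rw [Matroid.delete_indep_iff, Matroid.Indep.contract_indep_iff ((relM_Indep m _).2 h0)]
    have hkey : ∀ hI : I ⊆ (((relM m).contract {Sum.inl 0}).delete (Set.range Sum.inr)).E,
        ((relM m).Indep (I ∪ {Sum.inl 0}) ↔
          LinearIndependent (ZMod 2) (fun x : I => (g (x : Gd m)).rep)) := by
      intro hI
      have hnot : Sum.inl 0 ∉ I := by
        intro h
        obtain ⟨u, hu, h'⟩ := (hE _).1 (hI h)
        exact hu (Sum.inl_injective h').symm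
      have hfun : (fun x : I => (g (x : Gd m)).rep) =
          fun x : I => (LinearMap.fst (ZMod 2) (Fin m → ZMod 2) (ZMod 2) ∘ phi m) (x : Gd m) := by
        funext x
        obtain ⟨u, hu, hx⟩ := (hE _).1 (hI x.2)
        rw [hx, hg u hu, rep_mk2]
        rfl
      rw [hfun, relM_Indep, Set.union_singleton]
      constructor
      · rintro (h | h)
        · exact (LI_insert_zero_iff hnot).1 h
        · exfalso
          have : (Sum.inl 0 : Gd m) ∈ Yc m := by
            rw [← h]; exact Set.mem_insert _ _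
          obtain ⟨o, ho⟩ := this
          cases ho
      · intro h
        exact Or.inl ((LI_insert_zero_iff hnot).2 h)
    constructor
    · intro h
      have hI := h.subset_ground
      exact ⟨hI, (hkey hI).1 (hcon.1 h).1.2⟩
    · rintro ⟨hI, h⟩
      refine hcon.2 ⟨⟨?_, (hkey hI).2 h⟩, ?_⟩
      · rw [Set.disjoint_left]
        exact fun x hx => (hI hx).1.2
      · rw [Set.disjoint_left]
        exact fun x hx => (hI hx).2

/-- The disproof. -/
theorem disproof :
    ¬ (∀ q : ℕ, IsPrimePow q → ∃ m : ℕ, 0 < m ∧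
      ∀ (F : Type) [Field F] [Fintype F], Fintype.card F = q →
      ∀ (α : Type) (M : Matroid α), M.E.Finite →
        (∀ X Y : Set α, X ⊆ M.E → Y ⊆ M.E → X ∪ Y = M.E → M.Spanning X ∨ M.Spanning Y) →
        (∃ N : Matroid α, Matroid.IsMinor N M ∧
          ∃ g : α → Projectivization F (Fin m → F), Set.BijOn g N.E Set.univ ∧
            ∀ I : Set α, N.Indep I ↔ (I ⊆ N.E ∧ LinearIndependent F (fun x : I => (g (x : α)).rep))) →
        (¬ ∃ N : Matroid α, Matroid.IsMinor N M ∧ N.E.ncard = q ^ 2 + 1 ∧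
          ∀ I : Set α, I ⊆ N.E → (N.Indep I ↔ I.ncard ≤ 2)) →
        ∃ (n : ℕ) (v : α → Fin n → F), ∀ I : Set α,
          M.Indep I ↔ (I ⊆ M.E ∧ LinearIndependent F (fun x : I => v (x : α)))) := by
  intro h
  obtain ⟨m, hm, H⟩ := h 2 Nat.prime_two.isPrimePow
  exact not_rep m hm (H (ZMod 2) (ZMod.card 2) (Gd m) (relM m) (Set.toFinite _)
    (fun X Y _ _ hXY => round_relM m X Y hXY) (pg_minor m hm) (no_U25 m))

end Pool.Agent.Lib.MP_b67a76_co
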